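import Pool.Agent.Helper639.InsG

open Cardinal Pool.Agent.Helper639.InsG

namespace Pool.Agent.Results.MP_4f6a4e_gt.OneCompactum

/-- There is a compact Hausdorff space `X` which is not Gul'ko compact, although the closure of
every subset of `X` of size at most continuum is Gul'ko compact and the closure in `C_p(X)` of every
subset of `C_p(X)` of size at most continuum is a Lindelof Sigma space. -/
theorem result : ∃ (X : Type) (_ : TopologicalSpace X), CompactSpace X ∧ T2Space X ∧
    ¬ LindelofSigma (Cp X) ∧
    (∀ A : Set X, #A ≤ continuum → LindelofSigma (Cp (closure A))) ∧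
    (∀ A : Set (Cp X), #A ≤ continuum → LindelofSigma (closure A)) :=
  main

end Pool.Agent.Results.MP_4f6a4e_gt.OneCompactum
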